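import Pool.Agent.Work.MP_db9399_lt.Interface
import Pool.Agent.Work.MP_db9399_co.Galvin

/-! THEOREM LT, block GALVC (helper29): one application of Galvin's theorem to the edges between
different parts. -/

set_option autoImplicit false

namespace Pool.Agent.Work.MP_db9399_lt.helper29

open Finset Classical
open Pool.Agent.Work.MP_db9399_lt
open Pool.Agent.Work.MP_db9399_all (nb)
open Pool.Agent.Work.MP_db9399_nc (nn PEC Mts)

universe u

namespace GALVC

/-- the palette of the pair of cells `(j, l)`, `(j + 1, l')` -/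
noncomputable def Pal (Ce Cn : Fin 3 → Finset ℕ) (Q : Bool → Finset ℕ) (j : Fin 3)
    (l l' : Bool) : Finset ℕ := if l = l' then Ce (j + 2) else Cn (j + 2) ∪ Q l

section pal
variable {V : Type u} [Fintype V] {p : V → Fin 3} {a : V → Bool} {Ce Cn : Fin 3 → Finset ℕ}
  {Q : Bool → Finset ℕ} {s x : ℕ}

theorem mem_Pal {j : Fin 3} {l l' : Bool} {b : ℕ} : b ∈ Pal Ce Cn Q j l l' ↔
    (l = l' ∧ b ∈ Ce (j + 2)) ∨ (l ≠ l' ∧ (b ∈ Cn (j + 2) ∨ b ∈ Q l)) := by
  unfold Pal
  by_cases h : l = l'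
  · simp [h]
  · simp [h]

theorem f3a (j : Fin 3) : j + 2 ≠ j := by revert j; decide
theorem f3b (j : Fin 3) : j + 2 ≠ j + 1 := by revert j; decide
theorem f3c (j j' : Fin 3) (h : j = j' + 1) : j + 2 ≠ j' + 2 := by revert j j'; decide
theorem f3d (i j : Fin 3) (h : i ≠ j) : j = i + 1 ∨ (j = i + 2 ∧ i = j + 1) := by
  revert i j; decide
theorem f3e (i j : Fin 3) (h : i = j + 1) : j = i + 2 := by revert i j; decide
theorem f3f (i j : Fin 3) (h : j = i + 1) : i ≠ j := by revert i j; decide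
theorem f3g (i j : Fin 3) (h : j = i + 1) : i ≠ j + 1 := by revert i j; decide

theorem card_Pal (h : CP p a Ce Cn Q s x) (j : Fin 3) (l l' : Bool) :
    (Pal Ce Cn Q j l l').card = s := by
  unfold Pal
  by_cases hl : l = l'
  · rw [if_pos hl, h.ce]
  · rw [if_neg hl, card_union_of_disjoint (h.d5 _ _), h.cn]

theorem Pal_sub (j : Fin 3) (l l' : Bool) : Pal Ce Cn Q j l l' ⊆ ec Ce Cn Q := by
  intro b hb
  rw [mem_Pal] at hb
  unfold ec cc
  have key : ∀ (D : Fin 3 → Finset ℕ) (i : Fin 3), b ∈ D i → b ∈ D 0 ∪ D 1 ∪ D 2 := by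
    intro D i hi
    rw [mem_union, mem_union]
    fin_cases i
    · exact Or.inl (Or.inl hi)
    · exact Or.inl (Or.inr hi)
    · exact Or.inr hi
  rw [mem_union, mem_union, mem_union]
  rcases hb with ⟨_, hb⟩ | ⟨_, hb | hb⟩
  · exact Or.inl (Or.inl (Or.inl (key Ce _ hb)))
  · exact Or.inl (Or.inl (Or.inr (key Cn _ hb)))
  · cases l with
    | false => exact Or.inl (Or.inr hb)
    | true => exact Or.inr hb

theorem nd {A B : Finset ℕ} {b : ℕ} (h : Disjoint A B) (h1 : b ∈ A) (h2 : b ∈ B) : False :=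
  disjoint_left.mp h h1 h2

theorem QQ (h : CP p a Ce Cn Q s x) {l l' : Bool} {b : ℕ} (h1 : b ∈ Q l) (h2 : b ∈ Q l') :
    l = l' := by
  cases l <;> cases l'
  · rfl
  · exact (nd h.d6 h1 h2).elim
  · exact (nd h.d6 h2 h1).elim
  · rfl

theorem L1 (h : CP p a Ce Cn Q s x) {j : Fin 3} {l l' l'' : Bool} {b : ℕ}
    (h1 : b ∈ Pal Ce Cn Q j l l') (h2 : b ∈ Pal Ce Cn Q j l l'') : l' = l'' := by
  rw [mem_Pal] at h1 h2
  rcases h1 with ⟨e1, h1⟩ | ⟨e1, h1⟩ <;> rcases h2 with ⟨e2, h2⟩ | ⟨e2, h2⟩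
  · rw [← e1, ← e2]
  · rcases h2 with h2 | h2
    · exact (nd (h.d3 _ _) h1 h2).elim
    · exact (nd (h.d4 _ _) h1 h2).elim
  · rcases h1 with h1 | h1
    · exact (nd (h.d3 _ _) h2 h1).elim
    · exact (nd (h.d4 _ _) h2 h1).elim
  · cases l <;> cases l' <;> cases l'' <;> simp_all

theorem L3 (h : CP p a Ce Cn Q s x) {j : Fin 3} {l l' l'' : Bool} {b : ℕ}
    (h1 : b ∈ Pal Ce Cn Q j l l'') (h2 : b ∈ Pal Ce Cn Q j l' l'') : l = l' := by
  rw [mem_Pal] at h1 h2
  rcases h1 with ⟨e1, h1⟩ | ⟨e1, h1⟩ <;> rcases h2 with ⟨e2, h2⟩ | ⟨e2, h2⟩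
  · rw [e1, e2]
  · rcases h2 with h2 | h2
    · exact (nd (h.d3 _ _) h1 h2).elim
    · exact (nd (h.d4 _ _) h1 h2).elim
  · rcases h1 with h1 | h1
    · exact (nd (h.d3 _ _) h2 h1).elim
    · exact (nd (h.d4 _ _) h2 h1).elim
  · cases l <;> cases l' <;> cases l'' <;> simp_all

theorem L2 (h : CP p a Ce Cn Q s x) {j j' : Fin 3} {l l' l'' : Bool} {b : ℕ} (hj : j = j' + 1)
    (h1 : b ∈ Pal Ce Cn Q j l l') (h2 : b ∈ Pal Ce Cn Q j' l'' l) : False := by
  rw [mem_Pal] at h1 h2
  have hne := f3c j j' hj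
  rcases h1 with ⟨e1, h1⟩ | ⟨e1, h1⟩ <;> rcases h2 with ⟨e2, h2⟩ | ⟨e2, h2⟩
  · exact nd (h.d1 _ _ hne) h1 h2
  · rcases h2 with h2 | h2
    · exact nd (h.d3 _ _) h1 h2
    · exact nd (h.d4 _ _) h1 h2
  · rcases h1 with h1 | h1
    · exact nd (h.d3 _ _) h2 h1
    · exact nd (h.d4 _ _) h2 h1
  · rcases h1 with h1 | h1 <;> rcases h2 with h2 | h2
    · exact nd (h.d2 _ _ hne) h1 h2
    · exact nd (h.d5 _ _) h1 h2
    · exact nd (h.d5 _ _) h2 h1
    · exact e2 (QQ h h1 h2).symm

theorem L4 (h : CP p a Ce Cn Q s x) {i j : Fin 3} {l l' : Bool} {b : ℕ} (hj : j + 2 ≠ i)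
    (h1 : b ∈ Pal Ce Cn Q j l l') (h2 : b ∈ Ce i ∪ Cn i) : False := by
  rw [mem_Pal] at h1
  rw [mem_union] at h2
  rcases h1 with ⟨_, h1⟩ | ⟨_, h1 | h1⟩ <;> rcases h2 with h2 | h2
  · exact nd (h.d1 _ _ hj) h1 h2
  · exact nd (h.d3 _ _) h1 h2
  · exact nd (h.d3 _ _) h2 h1
  · exact nd (h.d2 _ _ hj) h1 h2
  · exact nd (h.d4 _ _) h2 h1
  · exact nd (h.d5 _ _) h2 h1

end pal

section rel
variable {V : Type u} [Fintype V]

/-- the partner given by a symmetric functional relation -/
noncomputable def fn (R : V → V → Prop) (v : V) : V := if h : ∃ w, R v w then h.choose else v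

theorem fn_eq {R : V → V → Prop} (hu : ∀ v w w', R v w → R v w' → w = w') {v w : V}
    (h : R v w) : fn R v = w := by
  have h1 : ∃ w, R v w := ⟨w, h⟩
  unfold fn
  rw [dif_pos h1]
  exact hu v _ _ h1.choose_spec h

theorem fn_ne {R : V → V → Prop} {v : V} (h : fn R v ≠ v) : R v (fn R v) := by
  unfold fn at h ⊢
  by_cases h1 : ∃ w, R v w
  · rw [dif_pos h1] at h ⊢
    exact h1.choose_spec
  · rw [dif_neg h1] at h
    exact absurd rfl h

theorem fn_inv {R : V → V → Prop} (hu : ∀ v w w', R v w → R v w' → w = w')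
    (hs : ∀ v w, R v w → R w v) (v : V) : fn R (fn R v) = v := by
  by_cases h : fn R v = v
  · rw [h, h]
  · exact fn_eq hu (hs _ _ (fn_ne h))

end rel

theorem exists_lab {V : Type u} [Fintype V] (A : Finset V) (s : ℕ) (h : A.card ≤ s) :
    ∃ f : V → ℕ, (∀ v ∈ A, f v < s) ∧ ∀ v ∈ A, ∀ w ∈ A, f v = f w → v = w := by
  refine ⟨fun v => if h : v ∈ A then (A.equivFin ⟨v, h⟩).val else 0, ?_, ?_⟩
  · intro v hv
    simp only [hv, dif_pos]
    exact lt_of_lt_of_le (A.equivFin ⟨v, hv⟩).2 h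
  · intro v hv w hw hvw
    simp only [hv, hw, dif_pos] at hvw
    have h1 := A.equivFin.injective (Fin.ext hvw)
    exact congrArg Subtype.val h1

theorem mod_inj {s y z z' : ℕ} (hz : z < s) (hz' : z' < s) (h : (y + z) % s = (y + z') % s) :
    z = z' := by
  have h1 : z ≡ z' [MOD s] := Nat.ModEq.add_left_cancel' y h
  exact Nat.ModEq.eq_of_lt_of_lt h1 hz hz'

end GALVC

open GALVC in
theorem stmt_GALVC : Stmt_GALVC.{u} := by
  intro V _ G Rv F p a Ce Cn Q s x hC hx3 hxs hF hnn hRv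
  obtain ⟨r, hr⟩ : ∃ r, r = s - 2 * x := ⟨_, rfl⟩
  have hr1 : 1 ≤ r := by omega
  have hlab : ∀ i l, ∃ f : V → ℕ, (∀ v ∈ cell p a i l, f v < s) ∧
      ∀ v ∈ cell p a i l, ∀ w ∈ cell p a i l, f v = f w → v = w := fun i l =>
    exists_lab _ s (hC.cs i l).1
  choose lf hlf1 hlf2 using hlab
  obtain ⟨lab, hlabdef⟩ : ∃ lab : V → ℕ, lab = fun v => lf (p v) (a v) v := ⟨_, rfl⟩
  have mcell : ∀ i l v, v ∈ cell p a i l ↔ p v = i ∧ a v = l := by
    intro i l v
    simp [cell]
  have hlt : ∀ v, lab v < s := by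
    intro v
    rw [hlabdef]
    exact hlf1 _ _ v ((mcell _ _ v).mpr ⟨rfl, rfl⟩)
  have hinj : ∀ v w, p v = p w → a v = a w → lab v = lab w → v = w := by
    intro v w h1 h2 h3
    rw [hlabdef] at h3
    simp only at h3
    rw [← h1, ← h2] at h3
    exact hlf2 _ _ v ((mcell _ _ v).mpr ⟨rfl, rfl⟩) w ((mcell _ _ w).mpr ⟨h1.symm, h2.symm⟩) h3
  -- the edges
  obtain ⟨S, hS⟩ : ∃ S : Finset (V × V), S = univ.filter (fun e => p e.2 = p e.1 + 1 ∧
      G.Adj e.1 e.2 ∧ ¬ Rv.Adj e.1 e.2 ∧ (lab e.1 + lab e.2) % s < r) := ⟨_, rfl⟩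
  have mS : ∀ v w, (v, w) ∈ S ↔ p w = p v + 1 ∧ G.Adj v w ∧ ¬ Rv.Adj v w ∧
      (lab v + lab w) % s < r := by
    intro v w
    rw [hS]
    simp only [mem_filter, mem_univ, true_and]
  have injA : ∀ v w w', p w = p w' → a w = a w' → (lab v + lab w) % s = (lab v + lab w') % s →
      w = w' := by
    intro v w w' h1 h2 h3
    exact hinj w w' h1 h2 (mod_inj (hlt w) (hlt w') h3)
  have injB : ∀ v w w', p w = p w' → a w = a w' → (lab w + lab v) % s = (lab w' + lab v) % s →
      w = w' := by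
    intro v w w' h1 h2 h3
    rw [add_comm (lab w), add_comm (lab w')] at h3
    exact injA v w w' h1 h2 h3
  obtain ⟨aa, haa⟩ : ∃ aa : V × V → ℕ, aa = fun e => (lab e.1 + lab e.2) % s := ⟨_, rfl⟩
  have hxa : ∀ e ∈ S, ∀ f ∈ S, ((e.1, a e.2) : V × Bool) = (f.1, a f.2) → aa e = aa f →
      e = f := by
    rintro ⟨v, w⟩ he ⟨v', w'⟩ hf h1 h2
    rw [mS] at he hf
    simp only [Prod.mk.injEq] at h1
    obtain ⟨h1, h3⟩ := h1
    subst h1
    rw [haa] at h2
    simp only at h2
    have := injA v w w' (he.1.trans hf.1.symm) h3 h2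
    rw [this]
  have hyb : ∀ e ∈ S, ∀ f ∈ S, ((e.2, a e.1) : V × Bool) = (f.2, a f.1) → aa e = aa f →
      e = f := by
    rintro ⟨v, w⟩ he ⟨v', w'⟩ hf h1 h2
    rw [mS] at he hf
    simp only [Prod.mk.injEq] at h1
    obtain ⟨h1, h3⟩ := h1
    subst h1
    rw [haa] at h2
    simp only at h2
    have h4 : p v = p v' := by
      have h5 := he.1.symm.trans hf.1
      exact add_right_cancel h5
    have := injB w v v' h4 h3 h2
    rw [this]
  have hSr : ∀ e ∈ S, aa e < r := by
    rintro ⟨v, w⟩ he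
    rw [mS] at he
    rw [haa]
    exact he.2.2.2
  obtain ⟨col, hcol1, hcol2⟩ := MP_db9399_co.galvin (C := ℕ) (fun e : V × V => (e.1, a e.2))
    (fun e : V × V => (e.2, a e.1)) aa (fun e => r - 1 - aa e) S hxa
    (fun e he f hf h1 h2 => hyb e he f hf h1 (by
      have := hSr e he
      have := hSr f hf
      omega))
    (fun e => (Pal Ce Cn Q (p e.1) (a e.1) (a e.2) \ F e.1) \ F e.2)
    (by
      intro e he
      have h1 : (S.filter (fun f => ((f.1, a f.2) : V × Bool) = (e.1, a e.2) ∧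
          aa f < aa e)).card ≤ aa e := by
        refine le_trans (card_le_card_of_injOn (t := range (aa e)) aa ?_ ?_) (card_range _).le
        · intro f hf
          rw [mem_coe, mem_filter] at hf
          exact mem_coe.mpr (mem_range.mpr hf.2.2)
        · intro f hf g hg hfg
          rw [mem_coe, mem_filter] at hf hg
          exact hxa f hf.1 g hg.1 (hf.2.1.trans hg.2.1.symm) hfg
      have h2 : (S.filter (fun f => ((f.2, a f.1) : V × Bool) = (e.2, a e.1) ∧
          r - 1 - aa f < r - 1 - aa e)).card ≤ r - 1 - aa e := by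
        refine le_trans (card_le_card_of_injOn (t := range (r - 1 - aa e))
          (fun f => r - 1 - aa f) ?_ ?_) (card_range _).le
        · intro f hf
          rw [mem_coe, mem_filter] at hf
          exact mem_coe.mpr (mem_range.mpr hf.2.2)
        · intro f hf g hg hfg
          rw [mem_coe, mem_filter] at hf hg
          refine hyb f hf.1 g hg.1 (hf.2.1.trans hg.2.1.symm) ?_
          have := hSr f hf.1
          have := hSr g hg.1
          simp only at hfg
          omega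
      have h3 : s ≤ ((Pal Ce Cn Q (p e.1) (a e.1) (a e.2) \ F e.1) \ F e.2).card + 2 * x := by
        have h4 := le_card_sdiff (F e.1) (Pal Ce Cn Q (p e.1) (a e.1) (a e.2))
        have h5 := le_card_sdiff (F e.2) (Pal Ce Cn Q (p e.1) (a e.1) (a e.2) \ F e.1)
        rw [card_Pal hC] at h4
        have := hF e.1
        have := hF e.2
        omega
      have h4 := hSr e he
      omega)
  have colP : ∀ v w, (v, w) ∈ S → col (v, w) ∈ Pal Ce Cn Q (p v) (a v) (a w) ∧
      col (v, w) ∉ F v ∧ col (v, w) ∉ F w := by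
    intro v w h
    have h1 := hcol1 (v, w) h
    rw [mem_sdiff, mem_sdiff] at h1
    exact ⟨h1.1.1, h1.1.2, h1.2⟩
  obtain ⟨R, hR⟩ : ∃ R : ℕ → V → V → Prop, R = fun b v w =>
      ((v, w) ∈ S ∧ col (v, w) = b) ∨ ((w, v) ∈ S ∧ col (w, v) = b) := ⟨_, rfl⟩
  have mR : ∀ b v w, R b v w ↔ ((v, w) ∈ S ∧ col (v, w) = b) ∨
      ((w, v) ∈ S ∧ col (w, v) = b) := by
    intro b v w
    rw [hR]
  have hu : ∀ b v w w', R b v w → R b v w' → w = w' := by
    intro b v w w' h1 h2
    rw [mR] at h1 h2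
    rcases h1 with ⟨h1, e1⟩ | ⟨h1, e1⟩ <;> rcases h2 with ⟨h2, e2⟩ | ⟨h2, e2⟩
    · have g1 := (colP v w h1).1
      have g2 := (colP v w' h2).1
      rw [e1] at g1
      rw [e2] at g2
      have g3 := L1 hC g1 g2
      by_contra hne
      exact hcol2 (v, w) h1 (v, w') h2 (fun h => hne (Prod.ext_iff.mp h).2)
        (Or.inl (by simp only [g3])) (e1.trans e2.symm)
    · have g1 := (colP v w h1).1
      have g2 := (colP w' v h2).1
      rw [e1] at g1
      rw [e2] at g2
      exact (L2 hC ((mS _ _).mp h2).1 g1 g2).elim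
    · have g1 := (colP w v h1).1
      have g2 := (colP v w' h2).1
      rw [e1] at g1
      rw [e2] at g2
      exact (L2 hC ((mS _ _).mp h1).1 g2 g1).elim
    · have g1 := (colP w v h1).1
      have g2 := (colP w' v h2).1
      rw [e1] at g1
      rw [e2] at g2
      have g4 : p w = p w' := by
        have h5 := ((mS _ _).mp h1).1.symm.trans ((mS _ _).mp h2).1
        exact add_right_cancel h5
      rw [← g4] at g2
      have g3 := L3 hC g1 g2
      by_contra hne
      exact hcol2 (w, v) h1 (w', v) h2 (fun h => hne (Prod.ext_iff.mp h).1)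
        (Or.inr (by simp only [g3])) (e1.trans e2.symm)
  have hs : ∀ b v w, R b v w → R b w v := by
    intro b v w h
    rw [mR] at h ⊢
    exact h.symm
  have Radj : ∀ b v w, R b v w → G.Adj v w ∧ ¬ Rv.Adj v w ∧ p w ≠ p v ∧ b ∉ F v ∧ b ∈ ec Ce Cn Q
      ∧ b ∉ Ce (p v) ∪ Cn (p v) := by
    intro b v w h
    rw [mR] at h
    rcases h with ⟨h, e⟩ | ⟨h, e⟩
    · have g1 := colP v w h
      rw [e] at g1
      have g2 := (mS _ _).mp h
      exact ⟨g2.2.1, g2.2.2.1, (f3f _ _ g2.1).symm, g1.2.1, Pal_sub _ _ _ g1.1,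
        fun g => L4 hC (f3a _) g1.1 g⟩
    · have g1 := colP w v h
      rw [e] at g1
      have g2 := (mS _ _).mp h
      exact ⟨g2.2.1.symm, fun g => g2.2.2.1 g.symm, f3f _ _ g2.1, g1.2.2, Pal_sub _ _ _ g1.1,
        fun g => L4 hC (by rw [g2.1]; exact f3b _) g1.1 g⟩
  -- kept neighbours of a vertex
  have kept : ∀ v w, p w ≠ p v → G.Adj v w → ¬ Rv.Adj v w → (lab v + lab w) % s < r →
      ∃ b, R b v w := by
    intro v w h1 h2 h3 h4
    rcases f3d _ _ h1.symm with h5 | ⟨_, h5⟩
    · exact ⟨col (v, w), (mR _ _ _).mpr (Or.inl ⟨(mS _ _).mpr ⟨h5, h2, h3, h4⟩, rfl⟩)⟩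
    · refine ⟨col (w, v), (mR _ _ _).mpr (Or.inr ⟨(mS _ _).mpr ⟨h5, h2.symm,
        fun g => h3 g.symm, ?_⟩, rfl⟩)⟩
      rw [add_comm]
      exact h4
  have cardJ : ∀ i : Fin 3, (((univ : Finset (Fin 3)).erase i) ×ˢ
      (univ : Finset Bool)).card = 4 := by
    intro i
    rw [card_product, card_erase_of_mem (mem_univ _)]
    simp
  have far : ∀ v, (univ.filter (fun w => p w ≠ p v ∧ r ≤ (lab v + lab w) % s)).card ≤
      8 * x := by
    intro v
    rw [card_eq_sum_card_fiberwise (f := fun w => (p w, a w))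
      (t := ((univ : Finset (Fin 3)).erase (p v)) ×ˢ (univ : Finset Bool))]
    · refine (sum_le_card_nsmul _ _ (2 * x) ?_).trans ?_
      · rintro ⟨i, l⟩ _
        refine le_trans (card_le_card_of_injOn (t := Ico r s)
          (fun w => (lab v + lab w) % s) ?_ ?_) (by rw [Nat.card_Ico]; omega)
        · intro w hw
          rw [mem_coe, mem_filter, mem_filter] at hw
          exact mem_coe.mpr (mem_Ico.mpr ⟨hw.1.2.2, Nat.mod_lt _ (by omega)⟩)
        · intro w hw w' hw' hh
          rw [mem_coe, mem_filter, Prod.mk.injEq] at hw hw'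
          exact injA v w w' (hw.2.1.trans hw'.2.1.symm) (hw.2.2.trans hw'.2.2.symm) hh
      · rw [cardJ, smul_eq_mul]
        omega
    · intro w hw
      rw [mem_coe, mem_filter] at hw
      rw [mem_coe, mem_product, mem_erase]
      exact ⟨⟨hw.2.1, mem_univ _⟩, mem_univ _⟩
  have tot : ∀ v, 4 * s ≤ (univ.filter (fun w => p w ≠ p v)).card + 4 * x := by
    intro v
    rw [card_eq_sum_card_fiberwise (s := univ.filter (fun w => p w ≠ p v))
      (f := fun w => (p w, a w))
      (t := ((univ : Finset (Fin 3)).erase (p v)) ×ˢ (univ : Finset Bool))]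
    · have h1 : ∑ _j ∈ ((univ : Finset (Fin 3)).erase (p v)) ×ˢ (univ : Finset Bool), s ≤
          ∑ j ∈ ((univ : Finset (Fin 3)).erase (p v)) ×ˢ (univ : Finset Bool),
          (((univ.filter (fun w => p w ≠ p v)).filter (fun w => (p w, a w) = j)).card + x) := by
        refine sum_le_sum ?_
        rintro ⟨i, l⟩ hj
        rw [mem_product, mem_erase] at hj
        refine (hC.cs i l).2.trans (Nat.add_le_add_right (card_le_card ?_) _)
        intro w hw
        rw [mcell] at hw
        rw [mem_filter, mem_filter]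
        exact ⟨⟨mem_univ _, by rw [hw.1]; exact hj.1.1⟩, by rw [hw.1, hw.2]⟩
      rw [sum_add_distrib, sum_const, sum_const, cardJ, smul_eq_mul, smul_eq_mul] at h1
      exact h1
    · intro w hw
      rw [mem_coe, mem_filter] at hw
      rw [mem_coe, mem_product, mem_erase]
      exact ⟨⟨hw.2, mem_univ _⟩, mem_univ _⟩
  refine ⟨fun b => fn (R b), ⟨?_, ?_, ?_⟩, ?_, ?_, ?_, ?_, ?_⟩
  · intro b _ v
    exact fn_inv (hu b) (hs b) v
  · intro b _ v hv
    exact (Radj b v _ (fn_ne hv)).1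
  · intro b _ b' _ hbb v hv h
    have h1 := fn_ne hv
    have h2 : R b' v (fn (R b) v) := by
      have h3 : fn (R b') v ≠ v := by
        intro h4
        exact hv (h.trans h4)
      have h4 := fn_ne h3
      rw [h]
      exact h4
    rw [mR] at h1 h2
    rcases h1 with ⟨h1, e1⟩ | ⟨h1, e1⟩ <;> rcases h2 with ⟨h2, e2⟩ | ⟨h2, e2⟩
    · exact hbb (e1.symm.trans e2)
    · exact f3g _ _ ((mS _ _).mp h1).1 ((mS _ _).mp h2).1
    · exact f3g _ _ ((mS _ _).mp h1).1 ((mS _ _).mp h2).1
    · exact hbb (e1.symm.trans e2)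
  · intro b _ v hv
    have h1 := Radj b v _ (fn_ne hv)
    exact ⟨h1.2.2.2.1, h1.2.1, h1.2.2.1⟩
  · intro i b hb v hv
    by_contra h
    have h1 := Radj b v _ (fn_ne h)
    rw [hv] at h1
    exact h1.2.2.2.2.2 hb
  · intro l b hb i j hij
    -- the cell
    have key : ∀ v, fn (R b) v ≠ v → (a v = l → p (fn (R b) v) = p v + 1) ∧
        (a v = !l → p (fn (R b) v) = p v + 2) := by
      intro v hv
      have h1 := fn_ne hv
      rw [mR] at h1
      rcases h1 with ⟨h1, e1⟩ | ⟨h1, e1⟩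
      · have g1 := (colP _ _ h1).1
        rw [e1, mem_Pal] at g1
        have g2 := ((mS _ _).mp h1).1
        rcases g1 with ⟨_, g1⟩ | ⟨_, g1 | g1⟩
        · exact (nd (hC.d4 _ _) g1 hb).elim
        · exact (nd (hC.d5 _ _) g1 hb).elim
        · have g3 := QQ hC g1 hb
          refine ⟨fun _ => g2, fun g4 => ?_⟩
          rw [g3] at g4
          cases l <;> simp at g4
      · have g1 := (colP _ _ h1).1
        rw [e1, mem_Pal] at g1
        have g2 := ((mS _ _).mp h1).1
        rcases g1 with ⟨_, g1⟩ | ⟨g0, g1 | g1⟩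
        · exact (nd (hC.d4 _ _) g1 hb).elim
        · exact (nd (hC.d5 _ _) g1 hb).elim
        · have g3 := QQ hC g1 hb
          refine ⟨fun g4 => ?_, fun _ => f3e _ _ g2⟩
          exact (g0 (g3.trans g4.symm)).elim
    have fin : ∀ l0 : Bool, (∀ v, p v = i → a v = l0 → fn (R b) v ≠ v → p (fn (R b) v) = j) →
        s ≤ (univ.filter (fun v => p v = i ∧ fn (R b) v ≠ v ∧ p (fn (R b) v) = j)).card +
          (univ.filter (fun v => fn (R b) v = v)).card + x := by
      intro l0 h0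
      have h1 := (hC.cs i l0).2
      have h2 : cell p a i l0 ⊆
          (univ.filter (fun v => p v = i ∧ fn (R b) v ≠ v ∧ p (fn (R b) v) = j)) ∪
          (univ.filter (fun v => fn (R b) v = v)) := by
        intro v hv
        rw [mcell] at hv
        rw [mem_union, mem_filter, mem_filter]
        by_cases h3 : fn (R b) v = v
        · exact Or.inr ⟨mem_univ _, h3⟩
        · exact Or.inl ⟨mem_univ _, hv.1, h3, h0 v hv.1 hv.2 h3⟩
      have h3 := (card_le_card h2).trans (card_union_le _ _)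
      omega
    rcases f3d i j hij with h1 | ⟨h1, _⟩
    · exact fin l (fun v hv hl h => by rw [(key v h).1 hl, hv, h1])
    · exact fin (!l) (fun v hv hl h => by rw [(key v h).2 hl, hv, h1])
  · intro v
    -- the kept neighbours
    obtain ⟨A, hA⟩ : ∃ A : Finset ℕ, A = (ec Ce Cn Q).filter (fun b => b ∉ Ce (p v) ∪ Cn (p v)) :=
      ⟨_, rfl⟩
    have hA4 : A.card ≤ 4 * s := by
      have h1 : A ⊆ (Ce (p v + 1) ∪ Ce (p v + 2)) ∪ ((Cn (p v + 1) ∪ Q false) ∪
          (Cn (p v + 2) ∪ Q true)) := by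
        intro b hb
        rw [hA, mem_filter] at hb
        obtain ⟨hb1, hb2⟩ := hb
        rw [mem_union, not_or] at hb2
        have key : ∀ (D : Fin 3 → Finset ℕ), b ∈ cc D → b ∉ D (p v) →
            b ∈ D (p v + 1) ∨ b ∈ D (p v + 2) := by
          intro D h1 h2
          have h3 : ∃ i, b ∈ D i := by
            unfold cc at h1
            rw [mem_union, mem_union] at h1
            rcases h1 with (h1 | h1) | h1
            · exact ⟨0, h1⟩
            · exact ⟨1, h1⟩
            · exact ⟨2, h1⟩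
          obtain ⟨i, hi⟩ := h3
          have h4 : p v ≠ i := fun h => h2 (h ▸ hi)
          rcases f3d _ _ h4 with h5 | ⟨h5, _⟩
          · exact Or.inl (h5 ▸ hi)
          · exact Or.inr (h5 ▸ hi)
        unfold ec at hb1
        rw [mem_union, mem_union, mem_union] at hb1
        simp only [mem_union]
        rcases hb1 with ((hb1 | hb1) | hb1) | hb1
        · have := key Ce hb1 hb2.1
          tauto
        · have := key Cn hb1 hb2.2
          tauto
        · tauto
        · tauto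
      have h2 := (card_le_card h1).trans ((card_union_le _ _).trans
        (Nat.add_le_add (card_union_le _ _) ((card_union_le _ _).trans
          (Nat.add_le_add (card_union_le _ _) (card_union_le _ _)))))
      have h3 := hC.ce (p v + 1)
      have h4 := hC.ce (p v + 2)
      have h5 := hC.cn (p v + 1) false
      have h6 := hC.cn (p v + 2) true
      omega
    obtain ⟨Wk, hWk⟩ : ∃ Wk : Finset V, Wk = univ.filter (fun w => p w ≠ p v ∧ G.Adj v w ∧
      ¬ Rv.Adj v w ∧ (lab v + lab w) % s < r) := ⟨_, rfl⟩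
    have hWk1 : 4 * s ≤ Wk.card + 14 * x := by
      have h1 : univ.filter (fun w => p w ≠ p v) ⊆ ((Wk ∪ nn G univ v) ∪ nb Rv v) ∪
          (univ.filter (fun w => p w ≠ p v ∧ r ≤ (lab v + lab w) % s)) := by
        intro w hw
        rw [mem_filter] at hw
        have h2 : p w ≠ p v := hw.2
        rw [mem_union, mem_union, mem_union, mem_filter, hWk, mem_filter]
        by_cases h3 : (lab v + lab w) % s < r
        · by_cases h4 : Rv.Adj v w
          · refine Or.inl (Or.inr ?_)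
            simp only [nb, mem_filter, mem_univ, true_and]
            exact h4
          · by_cases h5 : G.Adj v w
            · exact Or.inl (Or.inl (Or.inl ⟨mem_univ _, h2, h5, h4, h3⟩))
            · refine Or.inl (Or.inl (Or.inr ?_))
              simp only [nn, mem_filter, mem_univ, true_and]
              exact ⟨fun h => h2 (by rw [h]), h5⟩
        · exact Or.inr ⟨mem_univ _, h2, not_lt.mp h3⟩
      have h2 := (card_le_card h1).trans ((card_union_le _ _).trans
        (Nat.add_le_add_right ((card_union_le _ _).trans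
          (Nat.add_le_add_right (card_union_le _ _) _)) _))
      have h3 := tot v
      have h4 := far v
      have h5 := hnn v
      have h6 := hRv v
      omega
    have hc : ∀ w, ∃ b, w ∈ Wk → R b v w := by
      intro w
      by_cases hw : w ∈ Wk
      · have hw' := hw
        rw [hWk, mem_filter] at hw'
        obtain ⟨b, hb⟩ := kept v w hw'.2.1 hw'.2.2.1 hw'.2.2.2.1 hw'.2.2.2.2
        exact ⟨b, fun _ => hb⟩
      · exact ⟨0, fun h => absurd h hw⟩
    choose c hc using hc
    have h1 : (Wk.image c).card = Wk.card := by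
      refine card_image_of_injOn ?_
      intro w hw w' hw' hh
      have g1 := hc w (mem_coe.mp hw)
      have g2 := hc w' (mem_coe.mp hw')
      have hh' : c w = c w' := hh
      rw [hh'] at g1
      exact hu _ v w w' g1 g2
    have h2 : Wk.image c ⊆ A := by
      intro b hb
      rw [mem_image] at hb
      obtain ⟨w, hw, hwb⟩ := hb
      have g1 := Radj _ _ _ (hc w hw)
      rw [hwb] at g1
      rw [hA, mem_filter]
      exact ⟨g1.2.2.2.2.1, g1.2.2.2.2.2⟩
    have h3 : ((ec Ce Cn Q).filter (fun b => b ∉ Ce (p v) ∪ Cn (p v) ∧ b ∉ F v ∧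
        fn (R b) v = v)) ⊆ A := by
      intro b hb
      rw [mem_filter] at hb
      rw [hA, mem_filter]
      exact ⟨hb.1, hb.2.1⟩
    have h4 : Disjoint ((ec Ce Cn Q).filter (fun b => b ∉ Ce (p v) ∪ Cn (p v) ∧ b ∉ F v ∧
        fn (R b) v = v)) (Wk.image c) := by
      rw [disjoint_left]
      intro b hb hb'
      rw [mem_filter] at hb
      rw [mem_image] at hb'
      obtain ⟨w, hw, hwb⟩ := hb'
      have g1 := hc w hw
      rw [hwb] at g1
      have g2 := fn_eq (hu b) g1
      rw [hb.2.2.2] at g2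
      have g3 := (Radj b v w g1).1
      rw [← g2] at g3
      exact G.loopless.irrefl v g3
    have h5 := card_le_card (union_subset h3 h2)
    rw [card_union_of_disjoint h4, h1] at h5
    have h6 : ((ec Ce Cn Q).filter (fun b => b ∉ Ce (p v) ∪ Cn (p v) ∧ b ∉ F v ∧
        fn (R b) v = v)).card ≤ 17 * x := by omega
    exact h6
  · intro v
    refine le_trans (card_le_card ?_) ((far v).trans (by omega))
    intro w hw
    rw [mem_filter] at hw ⊢
    obtain ⟨_, g1, g2, g3, g4⟩ := hw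
    refine ⟨mem_univ _, g2, ?_⟩
    by_contra h
    obtain ⟨b, hb⟩ := kept v w g2 g1 g3 (not_le.mp h)
    exact g4 b (Radj b v w hb).2.2.2.2.1 (fn_eq (hu b) hb)

end Pool.Agent.Work.MP_db9399_lt.helper29
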